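import Pool.Agent.Lib.MP_abd978_an.Weak

/-!
# Project ABD: the main argument
-/

set_option autoImplicit false

open MeasureTheory Metric Set Filter Topology ContDiff
open scoped Gradient RealInnerProductSpace

namespace Pool.Agent.Lib.MP_abd978_an.H94

theorem main (hHalg : HalgStatement) (hHarn : HarnStatement) (hHch : HchStatement)
    (hEqc : EqcStatement) (hAnn : AnnStatement) (hPotx : PotxStatement) (hTgt : TgtStatement)
    (hPnc : PncStatement) : MainStatement := by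
  intro n p μ μ' a a' α β α' β' Ω f hn hop hop' hΩ hf hmor x₀ hx₀
  by_contra hcon
  rw [not_or] at hcon
  obtain ⟨hno, hnc⟩ := hcon
  push Not at hno
  obtain ⟨U₀, hU₀, hnot⟩ := hno
  -- the ball around `x₀`
  obtain ⟨e, he, heU⟩ := Metric.mem_nhds_iff.1 (inter_mem hU₀ (hΩ.mem_nhds hx₀))
  obtain ⟨d₀, hd₀, hdlt⟩ : ∃ d₀ : ℝ, 0 < d₀ ∧ d₀ < e := ⟨e / 2, by linarith, by linarith⟩
  have hK0 : closedBall x₀ d₀ ⊆ U₀ ∩ Ω := (closedBall_subset_ball hdlt).trans heU
  have hKΩ : closedBall x₀ d₀ ⊆ Ω := fun x hx => (hK0 hx).2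
  set y : E n := f x₀ with hy
  set I : Set (E n) := f '' closedBall x₀ d₀ with hI
  have hIc : IsCompact I := (isCompact_closedBall x₀ d₀).image_of_continuousOn (hf.mono hKΩ)
  have hIy : y ∈ I := ⟨x₀, mem_closedBall_self hd₀.le, rfl⟩
  have hIn : I ∉ 𝓝 y := fun h => hnot (mem_of_superset h (image_mono hK0))
  obtain ⟨R, hR, hIR⟩ : ∃ R : ℝ, 0 < R ∧ I ⊆ ball y R := by
    obtain ⟨R, hR⟩ := (hIc.isBounded).subset_ball y
    refine ⟨max R 1, by positivity, hR.trans (ball_subset_ball (le_max_left _ _))⟩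
  -- the potentials
  have hseq : ∀ j : ℕ, ∃ (y' : E n) (κ : ℝ) (v : E n → ℝ), y' ≠ y ∧
      dist y' y < R / (16 * (j + 1)) ∧ 0 < κ ∧ κ ≤ dist y' y / 4 ∧
      Disjoint (closedBall y' κ) I ∧ IsPot μ p a y R y' κ v := by
    intro j
    have hpos : 0 < R / (16 * ((j : ℝ) + 1)) := by positivity
    have h1 : ¬ ball y (R / (16 * ((j : ℝ) + 1))) ⊆ I :=
      fun h => hIn (mem_of_superset (ball_mem_nhds y hpos) h)
    obtain ⟨y', hy', hyI⟩ := not_subset.1 h1
    have hne : y' ≠ y := fun h => hyI (h ▸ hIy)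
    have hd : 0 < dist y' y := dist_pos.2 hne
    obtain ⟨s, hs, hsI⟩ := Metric.mem_nhds_iff.1 (hIc.isClosed.isOpen_compl.mem_nhds hyI)
    have hκ : 0 < min (s / 2) (dist y' y / 4) := lt_min (by linarith) (by linarith)
    have hlt : dist y' y < R / (16 * ((j : ℝ) + 1)) := hy'
    have hR16 : R / (16 * ((j : ℝ) + 1)) ≤ R / 16 := by
      apply div_le_div_of_nonneg_left hR.le (by norm_num)
      nlinarith [(Nat.cast_nonneg j : (0 : ℝ) ≤ j)]
    have hsub : closedBall y' (min (s / 2) (dist y' y / 4)) ⊆ ball y R := by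
      intro x hx
      rw [mem_closedBall] at hx
      rw [mem_ball]
      have h2 := dist_triangle x y' y
      have h3 := min_le_right (s / 2) (dist y' y / 4)
      linarith
    obtain ⟨v, hv⟩ := hPotx n p μ a α β y R y' _ hop hκ hsub
    refine ⟨y', _, v, hne, hlt, hκ, min_le_right _ _, ?_, hv⟩
    rw [Set.disjoint_left]
    intro x hx
    apply hsI
    rw [mem_closedBall] at hx
    rw [mem_ball]
    have h3 := min_le_left (s / 2) (dist y' y / 4)
    linarith
  choose y' κ v hne hdist hκ hκle hdisj hpot using hseq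
  have hlim : Tendsto (fun j => dist (y' j) y) atTop (𝓝 0) := by
    have h1 : Tendsto (fun j : ℕ => R / 16 * (1 / ((j : ℝ) + 1))) atTop (𝓝 (R / 16 * 0)) :=
      tendsto_one_div_add_atTop_nhds_zero_nat.const_mul _
    rw [mul_zero] at h1
    refine squeeze_zero (fun _ => dist_nonneg) (fun j => ?_) h1
    refine (hdist j).le.trans (le_of_eq ?_)
    field_simp
  have hsmall : ∀ δ : ℝ, 0 < δ → ∀ᶠ j in atTop, dist (y' j) y < δ := fun δ hδ =>
    hlim.eventually (gt_mem_nhds hδ)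
  have hsub8 : ∀ j, closedBall (y' j) (κ j) ⊆ ball y (R / 8) := by
    intro j x hx
    rw [mem_closedBall] at hx
    rw [mem_ball]
    have h2 := dist_triangle x (y' j) y
    have h3 := hdist j
    have h4 := hκle j
    have hR16 : R / (16 * ((j : ℝ) + 1)) ≤ R / 16 := by
      apply div_le_div_of_nonneg_left hR.le (by norm_num)
      nlinarith [(Nat.cast_nonneg j : (0 : ℝ) ≤ j)]
    linarith
  -- positivity and the target estimate
  have hvpos : ∀ᶠ j in atTop, 0 < v j y := by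
    obtain ⟨δ, hδ, h⟩ := hTgt n p μ a α β y R (R / 2) 1 hn (by linarith) (by linarith) one_pos hop
    filter_upwards [hsmall δ hδ] with j hj
    exact (h (y' j) (κ j) (v j) (hne j) hj (hκle j) (hpot j)).1
  have htgt : ∀ ρ ε : ℝ, 0 < ρ → 0 < ε → ∀ᶠ j in atTop, ∀ x ∈ ball y R, ρ ≤ dist x y →
      (v j y)⁻¹ * v j x ≤ 1 + ε := by
    intro ρ ε hρ hε
    have hρ' : 0 < min ρ (R / 2) := lt_min hρ (by linarith)
    obtain ⟨δ, hδ, h⟩ := hTgt n p μ a α β y R (min ρ (R / 2)) ε hn hρ'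
      (lt_of_le_of_lt (min_le_right _ _) (by linarith)) hε hop
    filter_upwards [hsmall δ hδ, hvpos] with j hj hvj x hx hxρ
    have h1 := (h (y' j) (κ j) (v j) (hne j) hj (hκle j) (hpot j)).2 x hx
      ((min_le_left _ _).trans hxρ)
    rw [inv_mul_le_iff₀ hvj]
    linarith
  have hVopen : ∀ j, IsOpen (ball y R \ closedBall (y' j) (κ j)) := fun j =>
    isOpen_ball.sdiff isClosed_closedBall
  have hharm : ∀ᶠ j in atTop,
      Harm μ p a (ball y R \ closedBall (y' j) (κ j)) fun x => (v j y)⁻¹ * v j x := by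
    filter_upwards [hvpos] with j hvj
    exact (hHalg n p μ a α β _ _ hop (hVopen j)
      (pharm n p μ a α β y R (y' j) (κ j) (v j) hop (hpot j))).2 _ (inv_pos.2 hvj)
  -- the functions on the source side
  have hsrc : ∀ᶠ j in atTop, Harm μ' p a' (ball x₀ d₀) fun x => (v j y)⁻¹ * v j (f x) := by
    filter_upwards [hharm] with j hj
    refine (hmor _ _ (hVopen j) hj).mono ?_
    intro x hx
    have hx' : x ∈ closedBall x₀ d₀ := ball_subset_closedBall hx
    have hfx : f x ∈ I := ⟨x, hx', rfl⟩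
    exact ⟨hKΩ hx', hIR hfx, fun h => Set.disjoint_left.1 (hdisj j) h hfx⟩
  have hvnn : ∀ j x, 0 ≤ v j x := fun j x => ((hpot j).2.2.1 x).1
  have hnn : ∀ᶠ j in atTop, ∀ x, 0 ≤ (v j y)⁻¹ * v j x := by
    filter_upwards [hvpos] with j hvj x
    exact mul_nonneg (inv_pos.2 hvj).le (hvnn j x)
  have hone : ∀ᶠ j in atTop, (v j y)⁻¹ * v j y = 1 := by
    filter_upwards [hvpos] with j hvj
    exact inv_mul_cancel₀ hvj.ne'
  -- boundedness on the source side
  obtain ⟨C1, hC1, hHch1⟩ := hHch n p μ' a' α' β' (ball x₀ d₀) (closedBall x₀ (d₀ / 2)) x₀ hop'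
    isOpen_ball (convex_ball x₀ d₀).isPreconnected (mem_ball_self hd₀)
    (isCompact_closedBall _ _) (closedBall_subset_ball (by linarith))
  have hbdd : ∀ᶠ j in atTop, ∀ z ∈ closedBall x₀ (d₀ / 2), (v j y)⁻¹ * v j (f z) ≤ C1 := by
    filter_upwards [hsrc, hnn, hone] with j h1 h2 h3 z hz
    have h4 := hHch1 (fun x => (v j y)⁻¹ * v j (f x)) h1 (fun x _ => h2 _) z hz
    simp only [← hy] at h4
    rw [h3, mul_one] at h4
    exact h4
  -- the upper bound on the source side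
  have hup : ∀ ε : ℝ, 0 < ε → ∀ᶠ j in atTop, ∀ x ∈ closedBall x₀ (d₀ / 4),
      (v j y)⁻¹ * v j (f x) ≤ 1 + ε := by
    intro ε hε
    refine (isCompact_closedBall x₀ (d₀ / 4)).induction_on
      (p := fun s => ∀ᶠ j in atTop, ∀ x ∈ s, (v j y)⁻¹ * v j (f x) ≤ 1 + ε) ?_ ?_ ?_ ?_
    · exact Eventually.of_forall fun j x hx => absurd hx (notMem_empty x)
    · intro s t hst ht
      filter_upwards [ht] with j hj x hx
      exact hj x (hst hx)
    · intro s t hs ht
      filter_upwards [hs, ht] with j h1 h2 x hx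
      rcases hx with hx | hx
      · exact h1 x hx
      · exact h2 x hx
    · intro x₁ hx₁
      have hx₁' : x₁ ∈ ball x₀ (d₀ / 2) := closedBall_subset_ball (by linarith) hx₁
      obtain ⟨δ, hδ, hE⟩ := hEqc n p μ' a' α' β' (ball x₀ (d₀ / 2)) x₁ C1 (ε / 2) hop'
        isOpen_ball hx₁' (by linarith)
      refine ⟨ball x₁ δ, mem_nhdsWithin_of_mem_nhds (ball_mem_nhds x₁ hδ), ?_⟩
      have hcen : ∀ᶠ j in atTop, (v j y)⁻¹ * v j (f x₁) ≤ 1 + ε / 2 := by
        have hx₁K : x₁ ∈ closedBall x₀ d₀ :=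
          closedBall_subset_closedBall (by linarith) hx₁
        have hfx : f x₁ ∈ I := ⟨x₁, hx₁K, rfl⟩
        by_cases hfy : f x₁ = y
        · filter_upwards [hone] with j hj
          rw [hfy, hj]
          linarith
        · filter_upwards [htgt (dist (f x₁) y) (ε / 2) (dist_pos.2 hfy) (by linarith)] with j hj
          exact hj _ (hIR hfx) le_rfl
      filter_upwards [hsrc, hnn, hbdd, hcen] with j h1 h2 h3 h4 x hx
      have h5 := hE (fun x => (v j y)⁻¹ * v j (f x)) (h1.mono (ball_subset_ball (by linarith)))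
        (fun x hx => by
          rw [abs_of_nonneg (h2 _)]
          exact h3 x (ball_subset_closedBall hx)) x hx
      have h6 := (abs_le.1 h5).2
      linarith
  -- the lower bound on the source side
  obtain ⟨C2, hC2, hH2⟩ := hHarn n p μ' a' α' β' hop'
  have hlow : ∀ ε : ℝ, 0 < ε → ∀ᶠ j in atTop, ∀ x ∈ closedBall x₀ (d₀ / 256),
      1 - C2 * ε ≤ (v j y)⁻¹ * v j (f x) := by
    intro ε hε
    filter_upwards [hsrc, hup ε hε, hone] with j h1 h2 h3 x hx
    have h64 : 64 * (d₀ / 256) = d₀ / 4 := by ring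
    have h4 := hH2 (ball x₀ d₀) (fun x => (1 + ε) - (v j y)⁻¹ * v j (f x)) x₀ (d₀ / 256)
      isOpen_ball ((hHalg n p μ' a' α' β' _ _ hop' isOpen_ball h1).1 (1 + ε)) (by linarith)
      (by rw [h64]; exact closedBall_subset_ball (by linarith))
      (by
        rw [h64]
        intro x hx
        have := h2 x hx
        show 0 ≤ (1 + ε) - (v j y)⁻¹ * v j (f x)
        linarith) x hx x₀ (mem_closedBall_self (by linarith))
    simp only [← hy] at h4
    rw [h3] at h4
    have h5 : (1 + ε) - 1 = ε := by ring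
    rw [h5] at h4
    linarith
  -- a point where `f` is different from `y`
  obtain ⟨x₁, hx₁, hfx₁⟩ : ∃ x₁ ∈ closedBall x₀ (d₀ / 256), f x₁ ≠ y := by
    by_contra hcon
    push Not at hcon
    exact hnc (mem_of_superset (closedBall_mem_nhds x₀ (by linarith : (0 : ℝ) < d₀ / 256))
      hcon)
  set z₀ : E n := f x₁ with hz₀
  have hz₀I : z₀ ∈ I := ⟨x₁, closedBall_subset_closedBall (by linarith) hx₁, rfl⟩
  have hz₀R : dist z₀ y < R := hIR hz₀I
  have hD1 : 0 < dist z₀ y := dist_pos.2 hfx₁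
  obtain ⟨ρ, hρ, hρ1, hρ2⟩ : ∃ ρ : ℝ, 0 < ρ ∧ ρ < dist z₀ y ∧ ρ < R / 8 :=
    ⟨min (dist z₀ y) (R / 8) / 2, by positivity, by
      have := min_le_left (dist z₀ y) (R / 8)
      linarith, by
      have := min_le_right (dist z₀ y) (R / 8)
      linarith⟩
  have hU1open : IsOpen {z : E n | ρ < dist z y ∧ dist z y < R} := by
    have h1 : Continuous fun z : E n => dist z y := continuous_id.dist continuous_const
    exact (isOpen_lt continuous_const h1).inter (isOpen_lt h1 continuous_const)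
  have hK1c : IsCompact {z : E n | R / 8 ≤ dist z y ∧ dist z y ≤ 7 * R / 8} := by
    have h1 : Continuous fun z : E n => dist z y := continuous_id.dist continuous_const
    refine (isCompact_closedBall y (7 * R / 8)).of_isClosed_subset
      ((isClosed_le continuous_const h1).inter (isClosed_le h1 continuous_const)) ?_
    intro z hz
    exact hz.2
  have hK1U : {z : E n | R / 8 ≤ dist z y ∧ dist z y ≤ 7 * R / 8} ⊆
      {z : E n | ρ < dist z y ∧ dist z y < R} := by
    rintro z ⟨h1, h2⟩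
    exact ⟨by linarith, by linarith⟩
  obtain ⟨C3, hC3, hHch3⟩ := hHch n p μ a α β {z : E n | ρ < dist z y ∧ dist z y < R}
    {z : E n | R / 8 ≤ dist z y ∧ dist z y ≤ 7 * R / 8} z₀ hop hU1open
    (hAnn n y ρ R hn hρ.le (by linarith)).isPreconnected ⟨hρ1, hz₀R⟩ hK1c hK1U
  obtain ⟨ε₀, hε₀, hnconst⟩ := hPnc n p μ a α β y R (by omega) hR hop
  have hpos3 : 0 < C3 * (1 + C2) := by positivity
  obtain ⟨ε, hε, hεε⟩ : ∃ ε : ℝ, 0 < ε ∧ C3 * (1 + C2) * ε ≤ ε₀ :=
    ⟨ε₀ / (C3 * (1 + C2)), by positivity, by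
      rw [mul_div_cancel₀ _ hpos3.ne']⟩
  obtain ⟨j, hj1, hj2, hj3, hj4, hj5, hj6⟩ := ((htgt ρ ε hρ hε).and (((hlow ε hε)).and
    (hharm.and (hvpos.and ((hsmall (ρ / 2) (by linarith)).and hone))))).exists
  have hsubU : {z : E n | ρ < dist z y ∧ dist z y < R} ⊆
      ball y R \ closedBall (y' j) (κ j) := by
    rintro z ⟨h1, h2⟩
    refine ⟨h2, fun h3 => ?_⟩
    rw [mem_closedBall] at h3
    have h4 := dist_triangle z (y' j) y
    have h5 := hκle j
    linarith
  have hz := hHch3 (fun x => (1 + ε) - (v j y)⁻¹ * v j x)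
    ((hHalg n p μ a α β _ _ hop hU1open (hj3.mono hsubU)).1 (1 + ε))
    (fun x hx => by
      have := hj1 x hx.2 hx.1.le
      show 0 ≤ (1 + ε) - (v j y)⁻¹ * v j x
      linarith)
  have hz0low : 1 - C2 * ε ≤ (v j y)⁻¹ * v j z₀ := hj2 x₁ hx₁
  obtain ⟨z, hz1, hz2, hz3⟩ := hnconst (y' j) (κ j) (v j) (v j y)⁻¹ (hpot j) (hsub8 j)
    (inv_pos.2 hj4)
  have h1 := hz z ⟨hz1, hz2⟩
  have h2 := hj1 z (show dist z y < R by linarith) (by linarith)
  have h3 : (1 + ε) - (v j y)⁻¹ * v j z₀ ≤ (1 + C2) * ε := by linarith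
  have h4 : C3 * ((1 + ε) - (v j y)⁻¹ * v j z₀) ≤ C3 * ((1 + C2) * ε) :=
    mul_le_mul_of_nonneg_left h3 (by linarith)
  have h5 : C3 * ((1 + C2) * ε) ≤ ε₀ := by
    rw [← mul_assoc]
    exact hεε
  have h6 : ε ≤ ε₀ := by
    refine le_trans ?_ hεε
    have : 1 ≤ C3 * (1 + C2) := by nlinarith
    nlinarith
  have h7 : |(v j y)⁻¹ * v j z - 1| ≤ ε₀ := by
    rw [abs_le]
    constructor <;> linarith
  linarith

end Pool.Agent.Lib.MP_abd978_an.H94
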